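import Pool.Agent.Helper5.LCU.Stmts

/-! Project LCU (MP_e96806_co), row BC: the binomial convolution of two log-concave sequences
without internal zeros is log-concave without internal zeros. -/

set_option autoImplicit false

open Finset

namespace Pool.Agent.Helper25.LCU

open Pool.Agent.Helper5.LCU

/-- the arrays -/
def Gn (a b : ℕ → ℝ) (n p q : ℕ) : ℝ :=
  ∑ i ∈ range (n + 1), (n.choose i : ℝ) * a (p + i) * b (q + (n - i))

theorem Gn_swap (a b : ℕ → ℝ) (n p q : ℕ) : Gn a b n p q = Gn b a n q p := by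
  unfold Gn
  rw [← sum_range_reflect]
  refine sum_congr rfl fun i hi => ?_
  have hi' : i ≤ n := Nat.lt_succ_iff.1 (mem_range.1 hi)
  have h1 : n + 1 - 1 - i = n - i := by omega
  have h2 : n - (n - i) = i := by omega
  rw [h1, h2, Nat.choose_symm hi']
  ring

theorem Gn_pascal (a b : ℕ → ℝ) (n p q : ℕ) :
    Gn a b (n + 1) p q = Gn a b n (p + 1) q + Gn a b n p (q + 1) := by
  unfold Gn
  rw [sum_range_succ']
  have h1 : ∀ i ∈ range (n + 1), ((n + 1).choose (i + 1) : ℝ) * a (p + (i + 1)) *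
      b (q + (n + 1 - (i + 1))) = (n.choose i : ℝ) * a (p + 1 + i) * b (q + (n - i)) +
        (n.choose (i + 1) : ℝ) * a (p + (i + 1)) * b (q + (n + 1 - (i + 1))) := by
    intro i hi
    have h2 : n + 1 - (i + 1) = n - i := by omega
    have h3 : p + 1 + i = p + (i + 1) := by omega
    rw [Nat.choose_succ_succ, h2, h3]
    push_cast
    ring
  rw [sum_congr rfl h1, sum_add_distrib, add_assoc]
  congr 1
  have h4 : ∑ i ∈ range (n + 1 + 1), (n.choose i : ℝ) * a (p + i) * b (q + (n + 1 - i)) =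
      ∑ i ∈ range (n + 1), (n.choose i : ℝ) * a (p + i) * b (q + 1 + (n - i)) := by
    rw [sum_range_succ, Nat.choose_succ_self, Nat.cast_zero, zero_mul, zero_mul, add_zero]
    refine sum_congr rfl fun i hi => ?_
    have hi' : i ≤ n := Nat.lt_succ_iff.1 (mem_range.1 hi)
    have h5 : q + (n + 1 - i) = q + 1 + (n - i) := by omega
    rw [h5]
  have h6 := sum_range_succ' (fun i => (n.choose i : ℝ) * a (p + i) * b (q + (n + 1 - i))) (n + 1)
  rw [← h4, h6]
  simp only [Nat.choose_zero_right]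

theorem slc_shift {b : ℕ → ℝ} (hb : SLC b) (q : ℕ) : SLC (fun i => b (q + i)) :=
  ⟨fun i => hb.1 _, fun i j hij => hb.2 (q + i) (q + j) (by omega)⟩

theorem Gn_p (hMUL : ST_MUL) (hCHS : ST_CHS) (hREV : ST_REV) (hCOR : ST_COR) {a b : ℕ → ℝ}
    (ha : SLC a) (hb : SLC b) (n q : ℕ) : SLC (fun p => Gn a b n p q) := by
  have h1 := hCOR _ a (hMUL _ _ (hCHS n) (hREV _ (slc_shift hb q) n)) ha (n + 1)
  have h2 : (fun p => ∑ i ∈ range (n + 1), ((n.choose i : ℝ) *
      (if i ≤ n then b (q + (n - i)) else 0)) * a (p + i)) = fun p => Gn a b n p q := by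
    funext p
    refine sum_congr rfl fun i hi => ?_
    rw [if_pos (Nat.lt_succ_iff.1 (mem_range.1 hi))]
    ring
  rw [← h2]
  exact h1

theorem Gn_pq (hCB : ST_CB) {a b : ℕ → ℝ} (ha : SLC a) (hb : SLC b) (n : ℕ) :
    Gn a b n 1 1 * Gn a b n 0 0 ≤ Gn a b n 1 0 * Gn a b n 0 1 := by
  have h1 := hCB (n + 1) (fun s => (n.choose s : ℝ) * a (s + 1)) (fun s => (n.choose s : ℝ) * a s)
    (fun s => b (n - s)) (fun s => b (n - s + 1)) ?_ ?_
  · have e : ∀ p q : ℕ, Gn a b n p q =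
        ∑ s ∈ range (n + 1), (n.choose s : ℝ) * a (s + p) * b (n - s + q) := by
      intro p q
      refine sum_congr rfl fun i _ => ?_
      rw [add_comm p i, add_comm q]
    rw [e, e, e, e]
    exact h1
  · intro s t hst _
    have h2 := ha.2 s (t - 1) (by omega)
    have h3 : t - 1 + 2 = t + 1 := by omega
    have h4 : t - 1 + 1 = t := by omega
    rw [h3, h4] at h2
    have h5 : (0 : ℝ) ≤ (n.choose s : ℝ) * (n.choose t : ℝ) := by positivity
    have h6 := mul_nonneg h5 (sub_nonneg.2 h2)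
    calc (0 : ℝ) ≤ _ := h6
      _ = _ := by ring
  · intro s t hst ht
    have h2 := hb.2 (n - t) (n - s - 1) (by omega)
    have h3 : n - s - 1 + 2 = n - s + 1 := by omega
    have h4 : n - s - 1 + 1 = n - s := by omega
    rw [h3, h4] at h2
    linarith

theorem bc_eq (a b : ℕ → ℝ) (n : ℕ) : BC a b n = Gn a b n 0 0 := by
  unfold BC Gn
  refine sum_congr rfl fun i _ => ?_
  rw [zero_add, zero_add]

theorem st_BC (hCB : ST_CB) (hLCZ : ST_LCZ) (hNIZ : ST_NIZ) (hCOR : ST_COR) (hCHS : ST_CHS)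
    (hMUL : ST_MUL) (hREV : ST_REV) : ST_BC := by
  intro a b ha hb
  have hnn : ∀ m, 0 ≤ BC a b m := fun m =>
    sum_nonneg fun i _ => mul_nonneg (mul_nonneg (Nat.cast_nonneg _) (ha.1 _)) (hb.1 _)
  have hpos : ∀ m, 0 < BC a b m ↔ ∃ i, i ≤ m ∧ 0 < a i ∧ 0 < b (m - i) := by
    intro m
    constructor
    · intro h
      obtain ⟨i, hi, h1⟩ := exists_lt_of_sum_lt (s := range (m + 1)) (f := fun _ => (0 : ℝ))
        (g := fun i => (m.choose i : ℝ) * a i * b (m - i)) (by rw [sum_const_zero]; exact h)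
      have hi' : i ≤ m := Nat.lt_succ_iff.1 (mem_range.1 hi)
      refine ⟨i, hi', ?_, ?_⟩
      · rcases (ha.1 i).lt_or_eq with h2 | h2
        · exact h2
        · rw [← h2, mul_zero, zero_mul] at h1
          exact absurd h1 (lt_irrefl _)
      · rcases (hb.1 (m - i)).lt_or_eq with h2 | h2
        · exact h2
        · rw [← h2, mul_zero] at h1
          exact absurd h1 (lt_irrefl _)
    · rintro ⟨i, hi, h1, h2⟩
      refine sum_pos' (fun j _ => mul_nonneg (mul_nonneg (Nat.cast_nonneg _) (ha.1 _)) (hb.1 _))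
        ⟨i, mem_range.2 (Nat.lt_succ_of_le hi), ?_⟩
      have h3 : (0 : ℝ) < (m.choose i : ℝ) := by exact_mod_cast Nat.choose_pos hi
      positivity
  refine hLCZ _ hnn (fun n => ?_) fun x y z hxy hyz h1 h2 => ?_
  · have e0 : BC a b n = Gn a b n 0 0 := bc_eq a b n
    have e1 : BC a b (n + 1) = Gn a b n 1 0 + Gn a b n 0 1 := by
      rw [bc_eq, Gn_pascal]
    have e2 : BC a b (n + 2) = Gn a b n 2 0 + 2 * Gn a b n 1 1 + Gn a b n 0 2 := by
      rw [bc_eq, Gn_pascal, Gn_pascal, Gn_pascal]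
      ring
    have g1 : Gn a b n 0 0 * Gn a b n 2 0 ≤ Gn a b n 1 0 * Gn a b n 1 0 :=
      (Gn_p hMUL hCHS hREV hCOR ha hb n 0).2 0 0 le_rfl
    have g2 : Gn a b n 0 0 * Gn a b n 0 2 ≤ Gn a b n 0 1 * Gn a b n 0 1 := by
      have := (Gn_p hMUL hCHS hREV hCOR hb ha n 0).2 0 0 le_rfl
      rw [Gn_swap a b n 0 0, Gn_swap a b n 0 2, Gn_swap a b n 0 1]
      exact this
    have g3 := Gn_pq hCB ha hb n
    rw [e0, e1, e2]
    nlinarith
  · obtain ⟨i, hi, ai, bi⟩ := (hpos x).1 h1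
    obtain ⟨j, hj, aj, bj⟩ := (hpos z).1 h2
    refine (hpos y).2 ?_
    obtain ⟨k, hk⟩ : ∃ k, k = max (min i j) (y - max (x - i) (z - j)) := ⟨_, rfl⟩
    refine ⟨k, by omega, ?_, ?_⟩
    · rcases le_total i j with hij | hij
      · exact hNIZ a ha i k j (by omega) (by omega) ai aj
      · exact hNIZ a ha j k i (by omega) (by omega) aj ai
    · rcases le_total (x - i) (z - j) with hij | hij
      · exact hNIZ b hb (x - i) (y - k) (z - j) (by omega) (by omega) bi bj
      · exact hNIZ b hb (z - j) (y - k) (x - i) (by omega) (by omega) bj bi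

end Pool.Agent.Helper25.LCU
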